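import Mathlib

namespace Pool.Agent.Results.MP_b87ef1_co.EvenPlusTwo

open Finset

theorem result (n : ℕ) (hn : 4 ≤ n) (he : Even n) :
    ∃ F : Finset (Finset (Fin n)),
      (∀ A ∈ F, ∀ B ∈ F, ∀ C ∈ F, A ≠ B → A ≠ C → B ≠ C → A ∪ B ≠ C ∧ A ∩ B ≠ C) ∧
      F.card = n.choose (n / 2) + 2 := by
  obtain ⟨h, rfl⟩ : ∃ h, n = 2 * h + 2 := by
    obtain ⟨k, hk⟩ := he
    exact ⟨k - 1, by omega⟩
  have hh : 1 ≤ h := by omega
  let y : Fin (2 * h + 2) := 0
  set M : Finset (Fin (2 * h + 2)) := univ.erase y with hM
  have hMc : M.card = 2 * h + 1 := by simp [hM]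
  have hyM : y ∉ M := by simp [hM]
  refine ⟨(powersetCard h M ∪ powersetCard (2 * h + 1) M) ∪
    (powersetCard (h + 1) M ∪ powersetCard 0 M).image (insert y), ?_, ?_⟩
  · have key : ∀ A ∈ (powersetCard h M ∪ powersetCard (2 * h + 1) M) ∪
        (powersetCard (h + 1) M ∪ powersetCard 0 M).image (insert y),
        (y ∉ A ∧ (A.card = h ∨ A.card = 2 * h + 1)) ∨ (y ∈ A ∧ (A.card = h + 2 ∨ A.card = 1)) := by
      intro A hA
      simp only [mem_union, mem_image, mem_powersetCard] at hA
      rcases hA with (hA | hA) | ⟨B, hB | hB, rfl⟩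
      · exact Or.inl ⟨fun hy => hyM (hA.1 hy), Or.inl hA.2⟩
      · exact Or.inl ⟨fun hy => hyM (hA.1 hy), Or.inr hA.2⟩
      · refine Or.inr ⟨mem_insert_self _ _, Or.inl ?_⟩
        rw [card_insert_of_notMem (fun hy => hyM (hB.1 hy)), hB.2]
      · refine Or.inr ⟨mem_insert_self _ _, Or.inr ?_⟩
        rw [card_insert_of_notMem (fun hy => hyM (hB.1 hy)), hB.2]
    intro A hA B hB C hC hAB hAC hBC
    have a := key A hA
    have b := key B hB
    have c := key C hC
    have e := card_union_add_card_inter A B
    have u1 : (A ∪ B).card ≤ 2 * h + 2 := by simpa using card_le_univ (A ∪ B)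
    have u2 : y ∉ A → y ∉ B → (A ∪ B).card ≤ 2 * h + 1 := by
      intro h1 h2
      rw [← hMc]
      apply card_le_card
      intro x hx
      rw [hM, mem_erase]
      refine ⟨?_, mem_univ _⟩
      rintro rfl
      rcases mem_union.1 hx with h | h <;> contradiction
    constructor
    · rintro rfl
      have l1 : A.card < (A ∪ B).card := card_lt_card (ssubset_of_subset_of_ne subset_union_left hAC)
      have l2 : B.card < (A ∪ B).card := card_lt_card (ssubset_of_subset_of_ne subset_union_right hBC)
      rw [mem_union] at c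
      by_cases ya : y ∈ A <;> by_cases yb : y ∈ B <;> simp only [ya, yb] at a b c <;>
        simp at a b c <;> omega
    · rintro rfl
      have l1 : (A ∩ B).card < A.card :=
        card_lt_card (ssubset_of_subset_of_ne inter_subset_left hAC.symm)
      have l2 : (A ∩ B).card < B.card :=
        card_lt_card (ssubset_of_subset_of_ne inter_subset_right hBC.symm)
      rw [mem_inter] at c
      by_cases ya : y ∈ A <;> by_cases yb : y ∈ B <;> simp only [ya, yb] at a b c u2 <;>
        simp at a b c u2 <;> omega
  · have d : ∀ i j : ℕ, i ≠ j → Disjoint (powersetCard i M) (powersetCard j M) := by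
      intro i j hij
      rw [disjoint_left]
      intro A h1 h2
      exact hij ((mem_powersetCard.1 h1).2.symm.trans (mem_powersetCard.1 h2).2)
    rw [card_union_of_disjoint, card_image_of_injOn, card_union_of_disjoint (d _ _ (by omega)),
      card_union_of_disjoint (d _ _ (by omega))]
    · simp only [card_powersetCard, hMc, Nat.choose_self, Nat.choose_zero_right]
      have : (2 * h + 2) / 2 = h + 1 := by omega
      rw [this, Nat.choose_succ_succ' (2 * h + 1) h]
      ring
    · intro A hA B hB e
      simp only [coe_union, Set.mem_union, mem_coe, mem_powersetCard] at hA hB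
      have h1 : y ∉ A := fun hy => hyM (by rcases hA with h | h <;> exact h.1 hy)
      have h2 : y ∉ B := fun hy => hyM (by rcases hB with h | h <;> exact h.1 hy)
      rw [← erase_insert h1, e, erase_insert h2]
    · rw [disjoint_left]
      intro A h1 h2
      obtain ⟨B, -, rfl⟩ := mem_image.1 h2
      simp only [mem_union, mem_powersetCard] at h1
      exact hyM (by rcases h1 with h | h <;> exact h.1 (mem_insert_self _ _))

end Pool.Agent.Results.MP_b87ef1_co.EvenPlusTwo
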